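import Pool.Agent.U437.SPN.Act

/-!
# Matrix Spencer in small algebras and for symmetric families

There is an absolute constant `C` such that the following hold for all `n` and all `n` real `n × n` matrices
`A_1, …, A_n` of operator norm at most `1`.

* **Algebras.** If all `A_i` lie in an algebra `ℬ` of `n × n` matrices which contains the identity and is closed under
  transposition, then some signs give `‖∑ ε_i A_i‖ ≤ C √n max(1, √(log (dim ℬ / n)))`. So Q1 holds for families in
  algebras of dimension `O(n)`.
* **Intertwiners.** Let `S` be a set of pairs `(P, Q)` of `n × n` matrices, closed under transposition, such that no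
  proper subspace of `ℝ^n` which is invariant under all `P` contains certain vectors `v_1, …, v_t`, and the same for the
  `Q` and certain vectors `w_1, …, w_t`. If `P A_i = A_i Q` for all `(P, Q) ∈ S` and all `i`, then some signs give
  `‖∑ ε_i A_i‖ ≤ C √(n (1 + log t))`. (With `S` the pairs `(P, P)`: matrices which commute with all `P`.)
* **Group actions.** Let a group act on the `n` rows, and on the `n` columns, with at most `t` orbits each. If all `A_i`
  are invariant under this action, then some signs give `‖∑ ε_i A_i‖ ≤ C √(n (1 + log t))`. So Q1 holds for families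
  of matrices with a common symmetry group which is transitive on the rows and on the columns, for instance for
  `G`-circulants for every finite group `G` of order `n` (in particular for the matrices of the regular
  representation of `G`), and for matrices invariant under a transitive permutation group. For the trivial group,
  `t = n`, the bound is the one of a random signing, `√(n log n)`.

The proof: the algebra is, over `ℂ`, isometrically a product of algebras of `d_i × d_i` matrices with
`∑ d_i² = dim ℬ` (Wedderburn-Artin and unitarisation), and for such a product a Spencer type partial colouring argument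
is run: high moments of a random signed sum in each block control the ranks of the parts of the matrix with large
singular values, weighted by the `d_i`, and the low rank matrices have small nets.
-/

set_option autoImplicit false

open Matrix

namespace Pool.Agent.Results.MP_e2be92_co.SymmetricFamilies

/-- `A` has operator norm at most `1` on Euclidean space. -/
def Contraction {n : ℕ} (A : Matrix (Fin n) (Fin n) ℝ) : Prop :=
  ∀ x : Fin n → ℝ, ∑ j, (A *ᵥ x) j ^ 2 ≤ ∑ j, x j ^ 2

/-- For some signs the matrix `∑ ε_i A_i` has operator norm at most `√b` on Euclidean space. -/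
def HasSigns {n : ℕ} (A : Fin n → Matrix (Fin n) (Fin n) ℝ) (b : ℝ) : Prop :=
  ∃ ε : Fin n → ℝ, (∀ i, ε i = 1 ∨ ε i = -1) ∧
    ∀ x : Fin n → ℝ, ∑ j, ((∑ i, ε i • A i) *ᵥ x) j ^ 2 ≤ b * ∑ j, x j ^ 2

/-- The vectors `v_1, …, v_t` generate `ℝ^n` under the matrices in `S`: they lie in no proper invariant subspace. -/
def Generate {n t : ℕ} (S : Set (Matrix (Fin n) (Fin n) ℝ)) (v : Fin t → Fin n → ℝ) : Prop :=
  ∀ W : Submodule ℝ (Fin n → ℝ), (∀ P ∈ S, ∀ u ∈ W, P *ᵥ u ∈ W) → (∀ j, v j ∈ W) → W = ⊤

theorem result : ∃ C : ℝ, 0 < C ∧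
    -- algebras
    (∀ (n : ℕ) (ℬ : StarSubalgebra ℝ (Matrix (Fin n) (Fin n) ℝ)) (A : Fin n → Matrix (Fin n) (Fin n) ℝ),
      (∀ i, Contraction (A i)) → (∀ i, A i ∈ ℬ) →
      HasSigns A (C ^ 2 * (n * max 1 (Real.log (Module.finrank ℝ ℬ / n))))) ∧
    -- intertwiners
    (∀ (n t : ℕ) (S : Set (Matrix (Fin n) (Fin n) ℝ × Matrix (Fin n) (Fin n) ℝ)) (v w : Fin t → Fin n → ℝ)
      (A : Fin n → Matrix (Fin n) (Fin n) ℝ),
      (∀ p ∈ S, (p.1ᵀ, p.2ᵀ) ∈ S) → Generate (Prod.fst '' S) v → Generate (Prod.snd '' S) w →
      (∀ i, Contraction (A i)) → (∀ i, ∀ p ∈ S, p.1 * A i = A i * p.2) →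
      HasSigns A (C ^ 2 * (n * (1 + Real.log t)))) ∧
    -- group actions
    (∀ (n t : ℕ) (G : Type) [Group G] (ρ σ : G →* Equiv.Perm (Fin n)) (r s : Fin t → Fin n)
      (A : Fin n → Matrix (Fin n) (Fin n) ℝ),
      (∀ x, ∃ g j, ρ g (r j) = x) → (∀ x, ∃ g j, σ g (s j) = x) →
      (∀ i, Contraction (A i)) → (∀ i g x y, A i (ρ g x) (σ g y) = A i x y) →
      HasSigns A (C ^ 2 * (n * (1 + Real.log t)))) := by
  refine ⟨2 * 10 ^ 5, by norm_num, ?_, ?_, ?_⟩
  · intro n ℬ A hA hB
    rcases Nat.eq_zero_or_pos n with rfl | hn
    · exact ⟨fun _ => 1, fun _ => Or.inl rfl, fun x => by simp⟩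
    · exact Pool.Agent.U437.SPN.star_signs n hn ℬ A hA hB
  · intro n t S v w A hS hv hw hA hc
    refine Pool.Agent.U437.SPN.two_sided n t S hS v w ?_ ?_ A hA hc
    · intro W hW
      exact hv W (by rintro _ ⟨p, hp, rfl⟩ u hu; exact hW p hp u hu)
    · intro W hW
      exact hw W (by rintro _ ⟨p, hp, rfl⟩ u hu; exact hW p hp u hu)
  · intro n t G _ ρ σ r s A hr hs hA hinv
    exact Pool.Agent.U437.SPN.two_actions n t G ρ σ r s hr hs A hA hinv

end Pool.Agent.Results.MP_e2be92_co.SymmetricFamilies
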